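import Pool.Agent.N229.PG.Stm

set_option autoImplicit false

/-! Project PG, leaf Q2: gaps of the configuration. -/

namespace PG

open Complex Filter Topology Metric Set

lemma q2_bpos (m : ℕ) : 0 < bb m := by unfold bb; positivity

lemma q2_bhalf (m : ℕ) : bb m ≤ 1 / 2 := by
  unfold bb
  rw [pow_succ]
  have : (1 / 2 : ℝ) ^ m ≤ 1 := pow_le_one₀ (by norm_num) (by norm_num)
  linarith

lemma q2_bsucc (m : ℕ) : 2 * bb (m + 1) = bb m := by
  unfold bb
  rw [pow_succ _ (m + 1)]
  ring

lemma q2_sin (m : ℕ) : Real.sin (Real.arcsin (bb m)) = bb m :=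
  Real.sin_arcsin (by linarith [q2_bpos m]) (by linarith [q2_bhalf m])

lemma q2_choose {N : ℕ} (hN : 1 ≤ N) {b t : ℝ} (hb : 0 < b) (h1 : b ≤ t) (h2 : t ≤ 2 * b) :
    ∃ j : Fin N, |t - b * (1 + ((j : ℕ) : ℝ) / (N : ℝ))| ≤ b / N := by
  have hN' : (0 : ℝ) < N := by exact_mod_cast hN
  set y : ℝ := (t / b - 1) * N with hy
  have ht1 : 1 ≤ t / b := by rw [le_div_iff₀ hb]; linarith
  have ht2 : t / b ≤ 2 := by rw [div_le_iff₀ hb]; linarith
  have hy0 : 0 ≤ y := mul_nonneg (by linarith) hN'.le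
  have hyN : y ≤ N := by
    rw [hy]
    nlinarith
  obtain ⟨j, hj, hjy⟩ : ∃ j : ℕ, j < N ∧ |y - j| ≤ 1 := by
    by_cases h : ⌊y⌋₊ < N
    · refine ⟨⌊y⌋₊, h, ?_⟩
      have h3 := Nat.floor_le hy0
      have h4 := Nat.lt_floor_add_one y
      rw [abs_le]
      constructor <;> linarith
    · refine ⟨N - 1, by omega, ?_⟩
      have h3 := Nat.floor_le hy0
      have h4 : (N : ℝ) ≤ (⌊y⌋₊ : ℝ) := by exact_mod_cast not_lt.1 h
      rw [Nat.cast_sub hN, abs_le]
      push_cast
      constructor <;> linarith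
  refine ⟨⟨j, hj⟩, ?_⟩
  have e : t - b * (1 + (j : ℝ) / N) = b / N * (y - j) := by
    rw [hy]
    field_simp
    ring
  show |t - b * (1 + (j : ℝ) / N)| ≤ b / N
  rw [e, abs_mul, abs_of_pos (by positivity : 0 < b / N)]
  calc b / N * |y - j| ≤ b / N * 1 := mul_le_mul_of_nonneg_left hjy (by positivity)
    _ = b / N := mul_one _

theorem leaf_Q2 : StmX → StmQ2 := by
  rintro ⟨-, hX⟩ α hα0 hα1 N hN hns
  have hNp : ∀ m, (0 : ℝ) < N m := fun m => by exact_mod_cast hN m
  have hgp : ∀ m, 0 < 4 * (bb m / N m) := fun m => by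
    have := q2_bpos m
    have := hNp m
    positivity
  have harc0 : ∀ m, 0 ≤ Real.arcsin (bb m) := fun m => Real.arcsin_nonneg.2 (q2_bpos m).le
  have harc1 : ∀ m, Real.arcsin (bb m) ≤ Real.pi / 2 := fun m => Real.arcsin_le_pi_div_two _
  refine ⟨fun m => 2 * Real.arcsin (bb m), fun m => 4 * (bb m / N m), ?_, ?_, hgp, ?_, ?_⟩
  · intro m
    have := harc0 m
    have := harc1 m
    have := Real.pi_pos
    constructor <;> linarith
  · intro m
    have h1 : bb (m + 1) ≤ bb m := by
      have := q2_bsucc m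
      have := q2_bpos (m + 1)
      linarith
    have := Real.monotone_arcsin h1
    show 2 * Real.arcsin (bb (m + 1)) ≤ 2 * Real.arcsin (bb m)
    linarith
  · intro m x hx1 hx2
    beta_reduce at hx1 hx2
    have hpi := Real.pi_pos
    have hb := q2_bpos m
    have hbh := q2_bhalf m
    have h0 := harc0 (m + 1)
    have h1 := harc1 m
    have hs1 : bb (m + 1) ≤ Real.sin (x / 2) := by
      rw [← q2_sin (m + 1)]
      exact Real.sin_le_sin_of_le_of_le_pi_div_two (by linarith) (by linarith) (by linarith)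
    have hs2 : Real.sin (x / 2) ≤ bb m := by
      have h3 : Real.sin (x / 2) ≤ Real.sin (Real.arcsin (bb m)) :=
        Real.sin_le_sin_of_le_of_le_pi_div_two (by linarith) (by linarith) (by linarith)
      rwa [q2_sin] at h3
    have hbs := q2_bsucc m
    obtain ⟨j, hj⟩ := q2_choose (hN m) hb (t := 2 * Real.sin (x / 2)) (by linarith) (by linarith)
    refine ⟨pt (tt N ⟨m, j⟩), Or.inr ⟨⟨m, j⟩, rfl⟩, ?_⟩
    have hjN : ((j : ℕ) : ℝ) / (N m : ℝ) ≤ 1 := by
      rw [div_le_one (hNp m)]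
      exact_mod_cast j.2.le
    have hj0 : 0 ≤ ((j : ℕ) : ℝ) / (N m : ℝ) := by
      have := hNp m
      positivity
    have ht0 : 0 ≤ tt N ⟨m, j⟩ := by
      show 0 ≤ bb m * (1 + ((j : ℕ) : ℝ) / (N m : ℝ))
      positivity
    have ht1 : tt N ⟨m, j⟩ ≤ 1 := by
      show bb m * (1 + ((j : ℕ) : ℝ) / (N m : ℝ)) ≤ 1
      nlinarith
    refine (hX x (tt N ⟨m, j⟩) (by linarith) (by linarith) (by linarith) ht0 ht1).trans ?_
    exact mul_le_mul_of_nonneg_left hj (by norm_num)
  · intro hsum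
    apply hns
    have h4 : (0 : ℝ) < 4 ^ (-α) := Real.rpow_pos_of_pos (by norm_num) _
    rw [← summable_mul_left_iff h4.ne']
    refine Summable.of_nonneg_of_le (fun m => ?_) (fun m => ?_) hsum
    · have := q2_bpos m
      have := hNp m
      positivity
    · have hb := q2_bpos m
      have hN1 := hNp m
      have e : (4 * (bb m / N m)) ^ (-α) = 4 ^ (-α) * ((N m : ℝ) / bb m) ^ α := by
        rw [Real.mul_rpow (by norm_num) (by positivity), Real.rpow_neg (by positivity : 0 ≤ bb m / N m),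
          ← Real.inv_rpow (by positivity), inv_div]
      have hlip : bb m ≤ 2 * Real.arcsin (bb m) - 2 * Real.arcsin (bb (m + 1)) := by
        have h5 := Real.lipschitzWith_sin.dist_le_mul (Real.arcsin (bb m)) (Real.arcsin (bb (m + 1)))
        rw [q2_sin, q2_sin, Real.dist_eq, Real.dist_eq] at h5
        have h6 : bb (m + 1) ≤ bb m := by
          have := q2_bsucc m
          have := q2_bpos (m + 1)
          linarith
        have h7 := Real.monotone_arcsin h6
        rw [abs_of_nonneg (by linarith), abs_of_nonneg (by linarith)] at h5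
        have h8 := q2_bsucc m
        simp only [NNReal.coe_one, one_mul] at h5
        linarith
      rw [e]
      calc 4 ^ (-α) * (bb m * ((N m : ℝ) / bb m) ^ α)
          = bb m * (4 ^ (-α) * ((N m : ℝ) / bb m) ^ α) := by ring
        _ ≤ (2 * Real.arcsin (bb m) - 2 * Real.arcsin (bb (m + 1))) *
            (4 ^ (-α) * ((N m : ℝ) / bb m) ^ α) :=
          mul_le_mul_of_nonneg_right hlip (by positivity)

end PG
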